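import Pool.Agent.W_a4f561_n5.Dyn

/-! Twists over a cut, `K`-bounded orders, the statements `Phi`, `PhiU` (helper5). -/

set_option autoImplicit false

namespace Pool.Agent.N5

variable {V W : Type}

/-- increasing in both coordinates -/
def Asc (L : V → ℕ) (T : List (V × V)) : Prop :=
  T.Pairwise (fun e f => L e.1 < L f.1 ∧ L e.2 < L f.2)

/-- `T` is a twist of edges of `E` over the cut `x` (values `≤ x` / values `> x`) -/
def IsTw (E : V → V → Prop) (L : V → ℕ) (x : ℕ) (T : List (V × V)) : Prop :=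
  Asc L T ∧ ∀ e ∈ T, E e.1 e.2 ∧ L e.1 ≤ x ∧ x < L e.2

/-- the cut `x` is covered by a `k`-twist -/
def Cov (E : V → V → Prop) (L : V → ℕ) (k x : ℕ) : Prop := ∃ T, T.length = k ∧ IsTw E L x T

/-- an order: injective and increasing along the edges -/
structure Ord (E : V → V → Prop) (L : V → ℕ) : Prop where
  inj : Function.Injective L
  mono : ∀ u v, E u v → L u < L v

/-- no `(K+1)`-twist -/
def Bdd (E : V → V → Prop) (L : V → ℕ) (K : ℕ) : Prop := ∀ x, ¬ Cov E L (K + 1) x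

/-- in every `K`-bounded order every cut between `p` and `q` is covered by a `k`-twist -/
def CovAll (K k : ℕ) (E : V → V → Prop) (p q : V) : Prop :=
  ∀ L : V → ℕ, Ord E L → Bdd E L K → ∀ x, L p ≤ x → x < L q → Cov E L k x

/-- in every `K`-bounded order one `k`-twist covers all of `[p, q]` -/
def UniAll (K k : ℕ) (E : V → V → Prop) (p q : V) : Prop :=
  ∀ L : V → ℕ, Ord E L → Bdd E L K →
    ∃ T : List (V × V), T.length = k ∧ Asc L T ∧ ∀ e ∈ T, E e.1 e.2 ∧ L e.1 ≤ L p ∧ L q ≤ L e.2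

/-- the path `s A p q B t` -/
def Pth (s : V) (A : List V) (p q : V) (B : List V) (t : V) : List V := s :: (A ++ p :: q :: (B ++ [t]))

/-- `F*(k)` = `C(k)` -/
def Phi (K k : ℕ) : Prop :=
  ∃ (V : Type) (_ : Countable V) (U : Set V) (E : V → V → Prop) (s : V) (A : List V) (p q : V)
    (B : List V) (t : V), Con U E (Pth s A p q B t) [s, t] ∧ CovAll K k E p q

/-- the uniform version -/
def PhiU (K k : ℕ) : Prop :=
  ∃ (V : Type) (_ : Countable V) (U : Set V) (E : V → V → Prop) (s : V) (A : List V) (p q : V)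
    (B : List V) (t : V), Con U E (Pth s A p q B t) [s, t] ∧ UniAll K k E p q

theorem Ord.le {E E' : V → V → Prop} {L : V → ℕ} (h : Ord E' L) (hE : ∀ u v, E u v → E' u v) : Ord E L :=
  ⟨h.inj, fun u v huv => h.mono u v (hE u v huv)⟩

theorem IsTw.le {E E' : V → V → Prop} {L : V → ℕ} {x : ℕ} {T : List (V × V)} (h : IsTw E L x T)
    (hE : ∀ u v, E u v → E' u v) : IsTw E' L x T :=
  ⟨h.1, fun e he => ⟨hE _ _ (h.2 e he).1, (h.2 e he).2⟩⟩

theorem Cov.le {E E' : V → V → Prop} {L : V → ℕ} {k x : ℕ} (h : Cov E L k x)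
    (hE : ∀ u v, E u v → E' u v) : Cov E' L k x := by
  obtain ⟨T, hT, h⟩ := h
  exact ⟨T, hT, h.le hE⟩

theorem Bdd.le {E E' : V → V → Prop} {L : V → ℕ} {K : ℕ} (h : Bdd E' L K)
    (hE : ∀ u v, E u v → E' u v) : Bdd E L K := fun x hx => h x (hx.le hE)

theorem CovAll.le {E E' : V → V → Prop} {K k : ℕ} {p q : V} (h : CovAll K k E p q)
    (hE : ∀ u v, E u v → E' u v) : CovAll K k E' p q :=
  fun L hL hB x h1 h2 => (h L (hL.le hE) (hB.le hE) x h1 h2).le hE

theorem UniAll.le {E E' : V → V → Prop} {K k : ℕ} {p q : V} (h : UniAll K k E p q)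
    (hE : ∀ u v, E u v → E' u v) : UniAll K k E' p q := by
  intro L hL hB
  obtain ⟨T, hT, hA, hT2⟩ := h L (hL.le hE) (hB.le hE)
  exact ⟨T, hT, hA, fun e he => ⟨hE _ _ (hT2 e he).1, (hT2 e he).2⟩⟩

/-- a twist of a copy is a twist -/
theorem Cov.copy {E : V → V → Prop} {E' : W → W → Prop} {f : V → W} {L : W → ℕ} {k x : ℕ}
    (h : Cov E (fun a => L (f a)) k x) (hE : ∀ u v, E u v → E' (f u) (f v)) : Cov E' L k x := by
  obtain ⟨T, hT, hA, h⟩ := h
  refine ⟨T.map (fun e => (f e.1, f e.2)), by simpa using hT, ?_, ?_⟩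
  · rw [Asc, List.pairwise_map]; exact hA
  · intro e he
    rw [List.mem_map] at he
    obtain ⟨e', he', rfl⟩ := he
    exact ⟨hE _ _ (h e' he').1, (h e' he').2⟩

theorem Ord.copy {E : V → V → Prop} {E' : W → W → Prop} {f : V → W} {L : W → ℕ}
    (h : Ord E' L) (hf : Function.Injective f) (hE : ∀ u v, E u v → E' (f u) (f v)) :
    Ord E (fun a => L (f a)) :=
  ⟨fun _ _ hab => hf (h.inj hab), fun u v huv => h.mono _ _ (hE u v huv)⟩

theorem Bdd.copy {E : V → V → Prop} {E' : W → W → Prop} {f : V → W} {L : W → ℕ} {K : ℕ}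
    (h : Bdd E' L K) (hE : ∀ u v, E u v → E' (f u) (f v)) :
    Bdd E (fun a => L (f a)) K := fun x hx => h x (hx.copy hE)

end Pool.Agent.N5
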