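import Mathlib

/-! Dynamic lists (time indexed), their edges, and the calculus `Con` (helper5). -/

set_option autoImplicit false

namespace Pool.Agent.N5

variable {V W : Type}

/-- one insertion between two neighbours -/
def Ins (l l' : List V) : Prop :=
  ∃ (x : List V) (a c b : V) (y : List V), l = x ++ a :: b :: y ∧ l' = x ++ a :: c :: b :: y

/-- one step: nothing, an insertion or a deletion -/
def Step (l l' : List V) : Prop := l = l' ∨ Ins l l' ∨ Ins l' l

/-- `R 0, .., R m` is a dynamic list -/
structure Dyn (R : ℕ → List V) (m : ℕ) : Prop where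
  nodup : ∀ i ≤ m, (R i).Nodup
  step : ∀ i < m, Step (R i) (R (i + 1))
  conv : ∀ i j k, i ≤ j → j ≤ k → k ≤ m → ∀ a, a ∈ R i → a ∈ R k → a ∈ R j

/-- the pairs which are consecutive at some time -/
def Edge (R : ℕ → List V) (m : ℕ) (u v : V) : Prop := ∃ i ≤ m, [u, v] <:+: R i

/-- there is a dynamic list from `l` to `l'`, with all elements in `U` and with (at least) the edges `E` -/
def Con (U : Set V) (E : V → V → Prop) (l l' : List V) : Prop :=
  ∃ (R : ℕ → List V) (m : ℕ), Dyn R m ∧ R 0 = l ∧ R m = l' ∧ (∀ i ≤ m, ∀ a ∈ R i, a ∈ U) ∧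
    (∀ u v, E u v → Edge R m u v)

theorem Step.symm {l l' : List V} (h : Step l l') : Step l' l := by
  rcases h with h | h | h
  · exact Or.inl h.symm
  · exact Or.inr (Or.inr h)
  · exact Or.inr (Or.inl h)

theorem Dyn.rev {R : ℕ → List V} {m : ℕ} (h : Dyn R m) : Dyn (fun i => R (m - i)) m where
  nodup := fun i _ => h.nodup (m - i) (Nat.sub_le m i)
  step := by
    intro i hi
    have h1 : m - i = (m - (i + 1)) + 1 := by omega
    have h2 := (h.step (m - (i + 1)) (by omega)).symm
    show Step (R (m - i)) (R (m - (i + 1)))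
    rw [h1]; exact h2
  conv := by
    intro i j k hij hjk hk a hai hak
    exact h.conv (m - k) (m - j) (m - i) (by omega) (by omega) (by omega) a hak hai

theorem Edge.rev {R : ℕ → List V} {m : ℕ} {u v : V} (h : Edge R m u v) :
    Edge (fun i => R (m - i)) m u v := by
  obtain ⟨i, hi, hi2⟩ := h
  refine ⟨m - i, by omega, ?_⟩
  have : m - (m - i) = i := by omega
  show [u, v] <:+: R (m - (m - i))
  rw [this]; exact hi2

theorem Edge.rev_iff {R : ℕ → List V} {m : ℕ} {u v : V} :
    Edge (fun i => R (m - i)) m u v ↔ Edge R m u v := by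
  constructor
  · rintro ⟨i, hi, hi2⟩
    exact ⟨m - i, by omega, hi2⟩
  · exact Edge.rev

theorem Con.symm {U : Set V} {E : V → V → Prop} {l l' : List V} (h : Con U E l l') : Con U E l' l := by
  obtain ⟨R, m, hD, h0, hm, hU, hE⟩ := h
  refine ⟨fun i => R (m - i), m, hD.rev, ?_, ?_, ?_, ?_⟩
  · simpa using hm
  · simpa using h0
  · intro i hi a ha
    exact hU (m - i) (by omega) a ha
  · intro u v huv
    exact (hE u v huv).rev

theorem Con.refl {l : List V} (hl : l.Nodup) :
    Con {a | a ∈ l} (fun u v => [u, v] <:+: l) l l := by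
  refine ⟨fun _ => l, 0, ⟨fun _ _ => hl, fun _ h => absurd h (by omega), fun _ _ _ _ _ _ a h _ => h⟩,
    rfl, rfl, fun _ _ a h => h, fun u v h => ⟨0, le_refl _, h⟩⟩

theorem Con.mono {U U' : Set V} {E E' : V → V → Prop} {l l' : List V} (h : Con U E l l')
    (hU : ∀ a, a ∈ U → a ∈ U') (hE : ∀ u v, E' u v → E u v) : Con U' E' l l' := by
  obtain ⟨R, m, hD, h0, hm, hU1, hE1⟩ := h
  exact ⟨R, m, hD, h0, hm, fun i hi a ha => hU _ (hU1 i hi a ha), fun u v huv => hE1 u v (hE u v huv)⟩

theorem Con.trans {U₁ U₂ : Set V} {E₁ E₂ : V → V → Prop} {l l' l'' : List V}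
    (h₁ : Con U₁ E₁ l l') (h₂ : Con U₂ E₂ l' l'') (hd : ∀ a, a ∈ U₁ → a ∈ U₂ → a ∈ l') :
    Con (U₁ ∪ U₂) (fun u v => E₁ u v ∨ E₂ u v) l l'' := by
  obtain ⟨R, m, hD, h0, hm, hU, hE⟩ := h₁
  obtain ⟨S, n, hD', h0', hn, hU', hE'⟩ := h₂
  have e1 : ∀ i, i ≤ m → (if i ≤ m then R i else S (i - m)) = R i := fun i hi => if_pos hi
  have e2 : ∀ i, m ≤ i → (if i ≤ m then R i else S (i - m)) = S (i - m) := by
    intro i hi
    by_cases h : i ≤ m
    · have : i = m := le_antisymm h hi
      subst this
      simp [hm, h0']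
    · simp [h]
  refine ⟨fun i => if i ≤ m then R i else S (i - m), m + n, ⟨?_, ?_, ?_⟩, ?_, ?_, ?_, ?_⟩
  · intro i hi
    rcases le_total i m with h | h
    · simp only [e1 i h]; exact hD.nodup i h
    · simp only [e2 i h]; exact hD'.nodup _ (by omega)
  · intro i hi
    rcases lt_or_ge i m with h | h
    · simp only [e1 i h.le, e1 (i + 1) h]; exact hD.step i h
    · simp only [e2 i h, e2 (i + 1) (by omega)]
      have : i + 1 - m = (i - m) + 1 := by omega
      rw [this]; exact hD'.step _ (by omega)
  · intro i j k hij hjk hk a hai hak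
    try simp only at hai hak ⊢
    rcases le_total k m with h | h
    · rw [e1 i (by omega)] at hai
      rw [e1 k h] at hak
      rw [e1 j (by omega)]
      exact hD.conv i j k hij hjk h a hai hak
    · rcases le_total i m with h' | h'
      · rw [e1 i h'] at hai
        rw [e2 k h] at hak
        have hc : a ∈ l' := hd a (hU i h' a hai) (hU' _ (by omega) a hak)
        rcases le_total j m with h'' | h''
        · rw [e1 j h'']
          exact hD.conv i j m hij h'' le_rfl a hai (by rw [hm]; exact hc)
        · rw [e2 j h'']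
          exact hD'.conv 0 (j - m) (k - m) (by omega) (by omega) (by omega) a (by rw [h0']; exact hc) hak
      · rw [e2 i h'] at hai
        rw [e2 k h] at hak
        rw [e2 j (by omega)]
        exact hD'.conv (i - m) (j - m) (k - m) (by omega) (by omega) (by omega) a hai hak
  · simp only [e1 0 (Nat.zero_le m)]; exact h0
  · simp only [e2 (m + n) (by omega)]
    have : m + n - m = n := by omega
    rw [this]; exact hn
  · intro i hi a ha
    try simp only at ha
    rcases le_total i m with h | h
    · rw [e1 i h] at ha; exact Or.inl (hU i h a ha)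
    · rw [e2 i h] at ha; exact Or.inr (hU' _ (by omega) a ha)
  · intro u v huv
    rcases huv with huv | huv
    · obtain ⟨i, hi, hi2⟩ := hE u v huv
      exact ⟨i, by omega, by simp only [e1 i hi]; exact hi2⟩
    · obtain ⟨i, hi, hi2⟩ := hE' u v huv
      refine ⟨m + i, by omega, ?_⟩
      simp only [e2 (m + i) (by omega)]
      have : m + i - m = i := by omega
      rw [this]; exact hi2

theorem Ins.ctx {l l' : List V} (f : V → W) (x y : List W) (h : Ins l l') :
    Ins (x ++ l.map f ++ y) (x ++ l'.map f ++ y) := by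
  obtain ⟨x', a, c, b, y', rfl, rfl⟩ := h
  exact ⟨x ++ x'.map f, f a, f c, f b, y'.map f ++ y, by simp, by simp⟩

theorem Step.ctx {l l' : List V} (f : V → W) (x y : List W) (h : Step l l') :
    Step (x ++ l.map f ++ y) (x ++ l'.map f ++ y) := by
  rcases h with h | h | h
  · exact Or.inl (by rw [h])
  · exact Or.inr (Or.inl (h.ctx f x y))
  · exact Or.inr (Or.inr (h.ctx f x y))

/-- play a dynamic list (copied by `f`) in a context `x ++ _ ++ y` -/
theorem Con.ctx {U : Set V} {E : V → V → Prop} {l l' : List V} (h : Con U E l l') {f : V → W}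
    (hf : Function.Injective f) (x y : List W) (hxy : (x ++ y).Nodup)
    (hx : ∀ a ∈ U, f a ∉ x) (hy : ∀ a ∈ U, f a ∉ y) :
    Con {w | w ∈ x ∨ w ∈ y ∨ ∃ a ∈ U, w = f a}
      (fun u v => ∃ u' v', E u' v' ∧ u = f u' ∧ v = f v') (x ++ l.map f ++ y) (x ++ l'.map f ++ y) := by
  obtain ⟨R, m, hD, h0, hm, hU, hE⟩ := h
  rw [List.nodup_append] at hxy
  obtain ⟨hx1, hy1, hxy1⟩ := hxy
  refine ⟨fun i => x ++ (R i).map f ++ y, m, ⟨?_, ?_, ?_⟩, ?_, ?_, ?_, ?_⟩
  · intro i hi
    show (x ++ (R i).map f ++ y).Nodup
    rw [List.nodup_append, List.nodup_append]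
    refine ⟨⟨hx1, (hD.nodup i hi).map hf, ?_⟩, hy1, ?_⟩
    · intro a ha b hb hab
      rw [List.mem_map] at hb
      obtain ⟨c, hc, rfl⟩ := hb
      subst hab
      exact hx c (hU i hi c hc) ha
    · intro a ha b hb hab
      subst hab
      rw [List.mem_append] at ha
      rcases ha with ha | ha
      · exact hxy1 a ha a hb rfl
      · rw [List.mem_map] at ha
        obtain ⟨c, hc, rfl⟩ := ha
        exact hy c (hU i hi c hc) hb
  · intro i hi
    exact (hD.step i hi).ctx f x y
  · intro i j k hij hjk hk a hai hak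
    simp only [List.mem_append, List.mem_map] at hai hak ⊢
    rcases hai with (hai | ⟨c, hc, rfl⟩) | hai
    · exact Or.inl (Or.inl hai)
    · rcases hak with (hak | ⟨c', hc', hcc⟩) | hak
      · exact Or.inl (Or.inl hak)
      · have := hf hcc
        subst this
        exact Or.inl (Or.inr ⟨c', hD.conv i j k hij hjk hk c' hc hc', rfl⟩)
      · exact Or.inr hak
    · exact Or.inr hai
  · show x ++ (R 0).map f ++ y = _; rw [h0]
  · show x ++ (R m).map f ++ y = _; rw [hm]
  · intro i hi a ha
    simp only [List.mem_append, List.mem_map] at ha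
    rcases ha with (ha | ⟨c, hc, rfl⟩) | ha
    · exact Or.inl ha
    · exact Or.inr (Or.inr ⟨c, hU i hi c hc, rfl⟩)
    · exact Or.inr (Or.inl ha)
  · rintro u v ⟨u', v', huv, rfl, rfl⟩
    obtain ⟨i, hi, s, t, hst⟩ := hE u' v' huv
    refine ⟨i, hi, x ++ s.map f, t.map f ++ y, ?_⟩
    show _ = x ++ (R i).map f ++ y
    rw [← hst]
    simp

/-- delete one element -/
theorem Con.del1 (x : List V) (a c b : V) (y : List V) (h : (x ++ a :: c :: b :: y).Nodup) :
    Con {w | w ∈ x ++ a :: c :: b :: y}
      (fun u v => [u, v] <:+: x ++ a :: c :: b :: y ∨ [u, v] <:+: x ++ a :: b :: y)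
      (x ++ a :: c :: b :: y) (x ++ a :: b :: y) := by
  have hsub : (x ++ a :: b :: y).Sublist (x ++ a :: c :: b :: y) := by
    apply List.Sublist.append_left
    apply List.Sublist.cons_cons
    exact List.sublist_cons_self c (b :: y)
  have h' : (x ++ a :: b :: y).Nodup := h.sublist hsub
  refine ⟨fun i => if i = 0 then x ++ a :: c :: b :: y else x ++ a :: b :: y, 1, ⟨?_, ?_, ?_⟩, ?_, ?_, ?_, ?_⟩
  · intro i _
    by_cases hi : i = 0
    · simpa [hi] using h
    · simpa [hi] using h'
  · intro i hi
    have : i = 0 := by omega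
    subst this
    right; right
    exact ⟨x, a, c, b, y, by simp, by simp⟩
  · intro i j k hij hjk hk w hwi hwk
    try simp only at hwi hwk ⊢
    by_cases hj : j = 0
    · have : i = 0 := by omega
      rw [if_pos hj]; rw [if_pos this] at hwi; exact hwi
    · have : k ≠ 0 := by omega
      rw [if_neg hj]; rw [if_neg this] at hwk; exact hwk
  · simp
  · simp
  · intro i _ w hw
    try simp only at hw
    by_cases hi : i = 0
    · rw [if_pos hi] at hw; exact hw
    · rw [if_neg hi] at hw; exact hsub.subset hw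
  · intro u v huv
    rcases huv with huv | huv
    · exact ⟨0, by omega, by simpa using huv⟩
    · exact ⟨1, by omega, by simpa using huv⟩

/-- delete a whole segment -/
theorem Con.delSeg (x : List V) (a : V) (z : List V) (b : V) (y : List V)
    (h : (x ++ a :: (z ++ b :: y)).Nodup) :
    Con {w | w ∈ x ++ a :: (z ++ b :: y)}
      (fun u v => [u, v] <:+: x ++ a :: (z ++ b :: y) ∨ [u, v] <:+: x ++ a :: b :: y)
      (x ++ a :: (z ++ b :: y)) (x ++ a :: b :: y) := by
  induction z with
  | nil =>
    refine (Con.refl h).mono (fun _ h => h) ?_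
    intro u v huv
    simpa using huv
  | cons c z ih =>
    -- delete c (the first one); its right neighbour is the head of z ++ b :: y
    obtain ⟨d, r, hd⟩ : ∃ d r, z ++ b :: y = d :: r := by
      cases z with
      | nil => exact ⟨b, y, rfl⟩
      | cons d z => exact ⟨d, z ++ b :: y, rfl⟩
    have e1 : x ++ a :: (c :: z ++ b :: y) = x ++ a :: c :: d :: r := by
      rw [List.cons_append, hd]
    have e2 : x ++ a :: (z ++ b :: y) = x ++ a :: d :: r := by rw [hd]
    have h1 : (x ++ a :: c :: d :: r).Nodup := by rw [← e1]; exact h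
    have c1 := Con.del1 x a c d r h1
    have hsub : (x ++ a :: d :: r).Sublist (x ++ a :: c :: d :: r) := by
      apply List.Sublist.append_left
      apply List.Sublist.cons_cons
      exact List.sublist_cons_self c (d :: r)
    have h2 : (x ++ a :: (z ++ b :: y)).Nodup := by rw [e2]; exact h1.sublist hsub
    have c2 := ih h2
    rw [e1]
    rw [e2] at c2
    refine (c1.trans c2 ?_).mono ?_ ?_
    · intro w _ hw
      exact hw
    · intro w hw
      rcases hw with hw | hw
      · exact hw
      · exact hsub.subset hw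
    · intro u v huv
      rcases huv with huv | huv
      · exact Or.inl (Or.inl huv)
      · exact Or.inr (Or.inr huv)

end Pool.Agent.N5
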